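import Pool.Agent.Helper996.DowkerTree

/-!
# A dense Aronszajn line on which Player II wins for all payoff sets

Q1 asks whether there is a dense Aronszajn line `A` such that Player II has a winning strategy in
the game `BG(A, S)` for every `S ⊆ A`. The answer is yes, in ZFC.

Let `e` be a coherent sequence of finite-to-one functions `e h : h → ℕ` (`h < ω₁`) and let `A` be the
set of all functions `x : h → ℚ`, `h < ω₁`, which differ from `e h` at finitely many places only,
ordered lexicographically, where `x` precedes all its end-extensions. Every `x ∈ A` is bounded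
below. Let `D n` be the set of all `x ∈ A` with all values `≥ -n`. No point `z` of `A` is a limit
from the right of `D n`, as the interval from `z` to `z⌢(-n-1)` contains no point of `D n`. In her
`n`-th move, Player II excludes all points of `D n`, and so in the end there is no point of `A`
between all her moves and all the moves of Player I.
-/

set_option autoImplicit false

open Cardinal Set

namespace Pool.Agent.Results.MP_8fd369_lc.SecondPlayerWins

/-- The set of all countable ordinals. -/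
abbrev Om1 : Type := (Cardinal.aleph 1 : Cardinal.{0}).ord.ToType

/-- An Aronszajn line: an uncountable linear order without subsets of the order types `ω₁` and
`ω₁*`, and without uncountable subsets which are isomorphic to a set of reals. -/
structure IsAronszajnLine (A : Type) [LinearOrder A] : Prop where
  uncountable : Uncountable A
  no_omega_one : ¬ ∃ f : Om1 → A, StrictMono f
  no_omega_one_star : ¬ ∃ f : Om1 → A, StrictAnti f
  no_real : ∀ S : Set A, (∃ g : S → ℝ, StrictMono g) → S.Countable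

section Game

variable {X : Type} [LinearOrder X]

/-- The `n`-th move `a n` of Player I is legal. -/
def LegalI (a b : ℕ → X) : ℕ → Prop
  | 0 => True
  | n + 1 => a n < a (n + 1) ∧ a (n + 1) < b n

/-- The `n`-th move `b n` of Player II is legal. -/
def LegalII (a b : ℕ → X) : ℕ → Prop
  | 0 => a 0 < b 0
  | n + 1 => a (n + 1) < b (n + 1) ∧ b (n + 1) < b n

/-- A strategy for Player II gives her `n`-th move `b n` as a function of `n` and the previous moves
`a 0, …, a n` and `b 0, …, b (n - 1)`. -/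
abbrev StrategyII (X : Type) : Type := (n : ℕ) → (Fin (n + 1) → X) → (Fin n → X) → X

/-- The `n`-th move of Player II is the one given by the strategy `σ`. -/
def FollowsII (σ : StrategyII X) (a b : ℕ → X) (n : ℕ) : Prop :=
  b n = σ n (fun i => a i) (fun i => b i)

/-- `σ` is a winning strategy for Player II in the game `BG(X, S)`: (1) as long as the moves of
Player I are legal and Player II follows `σ`, her moves are legal as well; (2) in each infinite play
in which she follows `σ` and the moves of Player I are legal, there is no `x ∈ S` with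
`a n < x < b n` for all `n`. -/
def WinningII (S : Set X) (σ : StrategyII X) : Prop :=
  ∀ a b : ℕ → X,
    (∀ n, (∀ m ≤ n, LegalI a b m ∧ FollowsII σ a b m) → LegalII a b n) ∧
    ((∀ n, LegalI a b n ∧ FollowsII σ a b n) → ¬ ∃ x ∈ S, ∀ n, a n < x ∧ x < b n)

/-- Player II wins if the whole order is the union of countably many sets none of which has a limit
point from the right. -/
theorem exists_winning [DenselyOrdered X] (D : ℕ → Set X) (hD : ∀ x, ∃ n, x ∈ D n)
    (hlim : ∀ n z, ∃ w, z < w ∧ ∀ x, z < x → x < w → x ∉ D n) (S : Set X) :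
    ∃ σ : StrategyII X, WinningII S σ := by
  classical
  choose w hw1 hw2 using hlim
  have hpick : ∀ (n : ℕ) (z u : X), ∃ c, z < u → z < c ∧ c < u ∧ c ≤ w n z := by
    intro n z u
    by_cases h : z < u
    · obtain ⟨c, hc1, hc2⟩ := exists_between (lt_min h (hw1 n z))
      exact ⟨c, fun _ => ⟨hc1, hc2.trans_le (min_le_left _ _), (hc2.trans_le (min_le_right _ _)).le⟩⟩
    · exact ⟨z, fun h' => absurd h' h⟩
  choose pick hpick using hpick
  let σ : StrategyII X := fun n => match n with
    | 0 => fun a _ => w 0 (a 0)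
    | n + 1 => fun a b => pick (n + 1) (a (Fin.last (n + 1))) (b (Fin.last n))
  refine ⟨σ, fun a b => ⟨fun n hn => ?_, fun hall => ?_⟩⟩
  · obtain ⟨h1, h2⟩ := hn n le_rfl
    cases n with
    | zero =>
      have h3 : b 0 = w 0 (a 0) := h2
      show a 0 < b 0
      rw [h3]
      exact hw1 0 _
    | succ n =>
      have h3 : b (n + 1) = pick (n + 1) (a (n + 1)) (b n) := h2
      have h4 := hpick (n + 1) (a (n + 1)) (b n) h1.2
      show a (n + 1) < b (n + 1) ∧ b (n + 1) < b n
      rw [h3]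
      exact ⟨h4.1, h4.2.1⟩
  · rintro ⟨x, -, hx⟩
    obtain ⟨n, hn⟩ := hD x
    have hle : b n ≤ w n (a n) := by
      obtain ⟨h1, h2⟩ := hall n
      cases n with
      | zero =>
        have h3 : b 0 = w 0 (a 0) := h2
        exact h3.le
      | succ n =>
        have h3 : b (n + 1) = pick (n + 1) (a (n + 1)) (b n) := h2
        rw [h3]
        exact (hpick (n + 1) (a (n + 1)) (b n) h1.2).2.2
    exact hw2 n (a n) x (hx n).1 ((hx n).2.trans_le hle) hn

end Game

/-! ### The countable ordinals -/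

theorem countable_Iio (a : Om1) : (Iio a).Countable := by
  rw [← Cardinal.le_aleph0_iff_set_countable, ← Order.lt_succ_iff, Cardinal.succ_aleph0]
  exact Cardinal.mk_Iio_toType_ord_lt a

theorem uncountable_Om1 : Uncountable Om1 := by
  rw [← Cardinal.aleph0_lt_mk_iff, Cardinal.mk_toType, Cardinal.card_ord]
  exact Cardinal.aleph0_lt_aleph_one

theorem countable_Iic (a : Om1) : (Iic a).Countable := by
  have h : Iic a = insert a (Iio a) := by
    ext x
    simp [le_iff_eq_or_lt]
  rw [h]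
  exact (countable_Iio a).insert a

/-- countable sets are bounded -/
theorem exists_bound (D : Set Om1) (hD : D.Countable) : ∃ a, ∀ d ∈ D, d < a := by
  by_contra hcon
  push Not at hcon
  have h1 : (univ : Set Om1) ⊆ ⋃ d ∈ D, Iic d := by
    intro a _
    obtain ⟨d, hd, hda⟩ := hcon a
    exact mem_biUnion hd hda
  have h2 : (univ : Set Om1).Countable := (hD.biUnion fun d _ => countable_Iic d).mono h1
  exact uncountable_Om1.not_countable (countable_univ_iff.1 h2)

/-- the successor -/
theorem exists_succ (h : Om1) : ∃ h', h < h' ∧ ∀ ξ, ξ < h' → ξ ≤ h := by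
  obtain ⟨a, ha⟩ := exists_bound {h} (countable_singleton h)
  obtain ⟨m, hm, hmin⟩ := WellFounded.has_min (wellFounded_lt (α := Om1)) {ξ | h < ξ}
    ⟨a, ha h rfl⟩
  exact ⟨m, hm, fun ξ hξ => not_lt.1 fun hlt => hmin ξ hlt hξ⟩

/-- an uncountable set has infinitely many elements below some ordinal -/
theorem exists_infinite (Z : Set Om1) (hZ : ¬ Z.Countable) : ∃ a, (Z ∩ Iio a).Infinite := by
  by_contra hcon
  push Not at hcon
  apply hZ
  have hfin : ∀ a, (Z ∩ Iio a).Finite := fun a => by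
    have := hcon a
    simpa using this
  refine Set.countable_of_injective_of_countable_image (f := fun z => (Z ∩ Iio z).ncard) ?_
    (Set.to_countable _)
  intro z hz z' hz' hzz
  by_contra hne
  rcases lt_or_gt_of_ne hne with h | h
  · have : (Z ∩ Iio z).ncard < (Z ∩ Iio z').ncard := by
      refine Set.ncard_lt_ncard ?_ (hfin z')
      refine ⟨fun x hx => ⟨hx.1, lt_trans hx.2 h⟩, fun hsub => ?_⟩
      exact absurd (hsub ⟨hz, h⟩ : z ∈ Z ∩ Iio z).2 (fun h' => lt_irrefl z h')
    exact absurd hzz this.ne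
  · have : (Z ∩ Iio z').ncard < (Z ∩ Iio z).ncard := by
      refine Set.ncard_lt_ncard ?_ (hfin z)
      refine ⟨fun x hx => ⟨hx.1, lt_trans hx.2 h⟩, fun hsub => ?_⟩
      exact absurd (hsub ⟨hz', h⟩ : z' ∈ Z ∩ Iio z').2 (fun h' => lt_irrefl z' h')
    exact absurd hzz this.ne'

/-! ### The line -/

section Line

/-- the sequences -/
abbrev Seq : Type := Lex (Om1 → WithBot ℚ)

/-- `x` codes a function from `h` to `ℚ` which differs from `e h` at finitely many places; the value
`⊥` is used from `h` on. -/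
def IsNode (e : Om1 → Om1 → ℕ) (x : Seq) (h : Om1) : Prop :=
  (∀ ξ, h ≤ ξ → x ξ = ⊥) ∧ (∀ ξ, ξ < h → x ξ ≠ ⊥) ∧
    {ξ | ξ < h ∧ x ξ ≠ ((e h ξ : ℚ) : WithBot ℚ)}.Finite

/-- the line -/
def Line (e : Om1 → Om1 → ℕ) : Type := {x : Seq // ∃ h, IsNode e x h}

noncomputable instance (e : Om1 → Om1 → ℕ) : LinearOrder (Line e) :=
  inferInstanceAs (LinearOrder {x : Seq // ∃ h, IsNode e x h})

variable {e : Om1 → Om1 → ℕ}

theorem lt_iff (x y : Seq) : x < y ↔ ∃ ξ, (∀ η, η < ξ → x η = y η) ∧ x ξ < y ξ := Iff.rfl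

/-- agreement below `α` -/
def Agree (α : Om1) (x y : Seq) : Prop := ∀ ξ, ξ < α → x ξ = y ξ

theorem Agree.symm {α : Om1} {x y : Seq} (h : Agree α x y) : Agree α y x := fun ξ hξ => (h ξ hξ).symm

theorem Agree.trans {α : Om1} {x y z : Seq} (h : Agree α x y) (h' : Agree α y z) : Agree α x z :=
  fun ξ hξ => (h ξ hξ).trans (h' ξ hξ)

/-- at the first place where they differ -/
theorem lt_of_first {x y : Seq} {ξ : Om1} (h : x < y) (hag : ∀ η, η < ξ → x η = y η)
    (hne : x ξ ≠ y ξ) : x ξ < y ξ := by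
  obtain ⟨ζ, h1, h2⟩ := (lt_iff x y).1 h
  rcases lt_trichotomy ζ ξ with hlt | heq | hgt
  · exact absurd (hag ζ hlt) h2.ne
  · exact heq ▸ h2
  · exact absurd (h1 ξ hgt) hne

theorem agree_of_between {x y z : Seq} {α : Om1} (hxy : x < y) (hyz : y < z) (h : Agree α x z) :
    Agree α x y := by
  intro ξ hξ
  induction ξ using WellFoundedLT.induction with
  | ind ξ ih =>
    by_contra hne
    have h1 := lt_of_first hxy (fun η hη => ih η hη (hη.trans hξ)) hne
    have h2 : y ξ < z ξ := by
      refine lt_of_first hyz (fun η hη => ?_) ?_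
      · rw [← ih η hη (hη.trans hξ)]
        exact h η (hη.trans hξ)
      · rw [← h ξ hξ]
        exact Ne.symm hne
    rw [← h ξ hξ] at h2
    exact absurd h1 (not_lt.2 h2.le)

theorem IsNode.unique {x : Seq} {h h' : Om1} (h1 : IsNode e x h) (h2 : IsNode e x h') : h = h' := by
  rcases lt_trichotomy h h' with hlt | heq | hgt
  · exact absurd (h1.1 h le_rfl) (h2.2.1 h hlt)
  · exact heq
  · exact absurd (h2.1 h' le_rfl) (h1.2.1 h' hgt)

/-- only countably many nodes of height `h` -/
theorem countable_level (h : Om1) : {x : Seq | IsNode e x h}.Countable := by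
  classical
  have hc : Countable (Iio h) := (countable_Iio h).to_subtype
  have hc2 : Countable (Iio h × WithBot ℚ) := inferInstance
  have hfs : {t : Set (Iio h × WithBot ℚ) | t.Finite}.Countable := by
    have := Set.countable_setOf_finite_subset (s := (univ : Set (Iio h × WithBot ℚ)))
      (Set.to_countable _)
    refine this.mono ?_
    intro t ht
    exact ⟨ht, subset_univ _⟩
  refine Set.countable_of_injective_of_countable_image
    (f := fun x : Seq => {p : Iio h × WithBot ℚ | x p.1.1 = p.2 ∧ p.2 ≠ ((e h p.1.1 : ℚ) : WithBot ℚ)})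
    ?_ (hfs.mono ?_)
  · intro x hx y hy hxy
    have hxy' : ∀ (p : Iio h × WithBot ℚ), (x p.1.1 = p.2 ∧ p.2 ≠ ((e h p.1.1 : ℚ) : WithBot ℚ)) ↔
        (y p.1.1 = p.2 ∧ p.2 ≠ ((e h p.1.1 : ℚ) : WithBot ℚ)) := fun p => Set.ext_iff.1 hxy p
    funext ξ
    rcases lt_or_ge ξ h with hlt | hge
    · by_cases h1 : x ξ = ((e h ξ : ℚ) : WithBot ℚ)
      · by_cases h2 : y ξ = ((e h ξ : ℚ) : WithBot ℚ)
        · exact h1.trans h2.symm
        · exact ((hxy' (⟨ξ, hlt⟩, y ξ)).2 ⟨rfl, h2⟩).1
      · exact ((hxy' (⟨ξ, hlt⟩, x ξ)).1 ⟨rfl, h1⟩).1.symm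
    · exact (hx.1 ξ hge).trans (hy.1 ξ hge).symm
  · rintro _ ⟨x, hx, rfl⟩
    have hfin := hx.2.2
    have h3 : {p : Iio h × WithBot ℚ | x p.1.1 = p.2 ∧ p.2 ≠ ((e h p.1.1 : ℚ) : WithBot ℚ)} ⊆
        (fun ξ : Iio h => (ξ, x ξ.1)) '' {ξ : Iio h | x ξ.1 ≠ ((e h ξ.1 : ℚ) : WithBot ℚ)} := by
      rintro ⟨ξ, v⟩ ⟨h4, h5⟩
      have h4' : x ξ.1 = v := h4
      subst h4'
      exact ⟨ξ, h5, rfl⟩
    refine Set.Finite.subset (Set.Finite.image _ ?_) h3
    have h6 : {ξ : Iio h | x ξ.1 ≠ ((e h ξ.1 : ℚ) : WithBot ℚ)} =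
        (Subtype.val) ⁻¹' {ξ | ξ < h ∧ x ξ ≠ ((e h ξ : ℚ) : WithBot ℚ)} := by
      ext ξ
      exact ⟨fun hh => ⟨ξ.2, hh⟩, fun hh => hh.2⟩
    rw [h6]
    exact hfin.preimage Subtype.val_injective.injOn

/-- only countably many nodes of height `≤ h` -/
theorem countable_levels (h : Om1) : {x : Seq | ∃ k, k ≤ h ∧ IsNode e x k}.Countable := by
  have h1 : {x : Seq | ∃ k, k ≤ h ∧ IsNode e x k} = ⋃ k ∈ Iic h, {x : Seq | IsNode e x k} := by
    ext x
    simp
  rw [h1]
  exact (countable_Iic h).biUnion fun k _ => countable_level k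

/-- restriction -/
noncomputable def res (α : Om1) (x : Seq) : Seq := fun ξ => if ξ < α then x ξ else ⊥

theorem res_agree (α : Om1) (x : Seq) : Agree α (res α x) x := fun ξ hξ => by simp [res, hξ]

theorem res_node (hcoh : ∀ a b, b < a → {c | c < b ∧ e a c ≠ e b c}.Finite) {x : Seq} {h : Om1}
    (hx : IsNode e x h) (α : Om1) : IsNode e (res α x) (min α h) := by
  rcases le_or_gt α h with hle | hlt
  · rw [min_eq_left hle]
    refine ⟨fun ξ hξ => by simp [res, not_lt.2 hξ], fun ξ hξ => ?_, ?_⟩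
    · simp only [res, hξ, if_true]
      exact hx.2.1 ξ (hξ.trans_le hle)
    · have h1 : {ξ | ξ < α ∧ res α x ξ ≠ ((e α ξ : ℚ) : WithBot ℚ)} ⊆
          {ξ | ξ < h ∧ x ξ ≠ ((e h ξ : ℚ) : WithBot ℚ)} ∪ {c | c < α ∧ e h c ≠ e α c} := by
        rintro ξ ⟨h2, h3⟩
        simp only [res, h2, if_true] at h3
        by_cases h4 : e h ξ = e α ξ
        · left
          refine ⟨h2.trans_le hle, ?_⟩
          rw [h4]
          exact h3
        · right
          exact ⟨h2, h4⟩
      refine Set.Finite.subset (hx.2.2.union ?_) h1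
      rcases hle.lt_or_eq with h5 | h5
      · exact hcoh h α h5
      · subst h5
        simp
  · rw [min_eq_right hlt.le]
    have h1 : res α x = x := by
      funext ξ
      by_cases h2 : ξ < α
      · simp [res, h2]
      · rw [not_lt] at h2
        simp only [res, not_lt.2 h2, if_false]
        exact (hx.1 ξ (hlt.le.trans h2)).symm
    rw [h1]
    exact hx

theorem res_eq {x : Seq} {h α : Om1} (hx : IsNode e x h) (hle : h ≤ α) : res α x = x := by
  funext ξ
  by_cases h2 : ξ < α
  · simp [res, h2]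
  · rw [not_lt] at h2
    simp only [res, not_lt.2 h2, if_false]
    exact (hx.1 ξ (hle.trans h2)).symm

/-- there is no branch of length `ω₁` -/
theorem no_branch (hfto : ∀ a k, {b | b < a ∧ e a b = k}.Finite) (B : Om1 → WithBot ℚ)
    (h1 : ∀ ξ, B ξ ≠ ⊥) (h2 : ∀ α, {ξ | ξ < α ∧ B ξ ≠ ((e α ξ : ℚ) : WithBot ℚ)}.Finite) : False := by
  have h3 : ∃ q : WithBot ℚ, ¬ {ξ | B ξ = q}.Countable := by
    by_contra hcon
    push Not at hcon
    have h4 : (univ : Set Om1) ⊆ ⋃ q : WithBot ℚ, {ξ | B ξ = q} := fun ξ _ =>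
      mem_iUnion.2 ⟨B ξ, rfl⟩
    have h5 : (univ : Set Om1).Countable := (countable_iUnion hcon).mono h4
    exact uncountable_Om1.not_countable (countable_univ_iff.1 h5)
  obtain ⟨q, hq⟩ := h3
  obtain ⟨a, ha⟩ := exists_infinite _ hq
  have h6 : (({ξ | B ξ = q} ∩ Iio a) \ {ξ | ξ < a ∧ B ξ ≠ ((e a ξ : ℚ) : WithBot ℚ)}).Infinite :=
    ha.sdiff (h2 a)
  obtain ⟨ξ0, hξ0⟩ := h6.nonempty
  have h7 : B ξ0 = ((e a ξ0 : ℚ) : WithBot ℚ) := by
    by_contra hne
    exact hξ0.2 ⟨hξ0.1.2, hne⟩
  refine h6 ((hfto a (e a ξ0)).subset ?_)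
  rintro ξ ⟨⟨h8, h9⟩, h10⟩
  refine ⟨h9, ?_⟩
  have h11 : B ξ = ((e a ξ : ℚ) : WithBot ℚ) := by
    by_contra hne
    exact h10 ⟨h9, hne⟩
  have h12 : ((e a ξ : ℚ) : WithBot ℚ) = ((e a ξ0 : ℚ) : WithBot ℚ) := by
    rw [← h11, ← h7]
    have h8' : B ξ = q := h8
    have h8'' : B ξ0 = q := hξ0.1.1
    rw [h8', h8'']
  have h13 : (e a ξ : ℚ) = (e a ξ0 : ℚ) := WithBot.coe_injective h12
  exact_mod_cast h13

/-- the main step for `ω₁` and `ω₁*` -/
theorem no_injection (hfto : ∀ a k, {b | b < a ∧ e a b = k}.Finite)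
    (hcoh : ∀ a b, b < a → {c | c < b ∧ e a c ≠ e b c}.Finite) (f : Om1 → Line e)
    (hf : Function.Injective f)
    (hconv : ∀ α a b c, a < b → b < c → Agree α (f a).1 (f c).1 → Agree α (f a).1 (f b).1) :
    False := by
  classical
  have key : ∀ α, ∃ t : Seq, IsNode e t α ∧ ¬ {ξ | Agree α (f ξ).1 t}.Countable := by
    intro α
    have h1 : ∃ t ∈ {x : Seq | ∃ k, k ≤ α ∧ IsNode e x k}, ¬ {ξ | res α (f ξ).1 = t}.Countable := by
      by_contra hcon
      push Not at hcon
      have h4 : (univ : Set Om1) ⊆ ⋃ t ∈ {x : Seq | ∃ k, k ≤ α ∧ IsNode e x k},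
          {ξ | res α (f ξ).1 = t} := by
        intro ξ _
        obtain ⟨h, hh⟩ := (f ξ).2
        exact mem_biUnion (x := res α (f ξ).1) ⟨_, min_le_left _ _, res_node hcoh hh α⟩ rfl
      have h5 : (univ : Set Om1).Countable := ((countable_levels α).biUnion hcon).mono h4
      exact uncountable_Om1.not_countable (countable_univ_iff.1 h5)
    obtain ⟨t, ⟨k, hk, htk⟩, ht⟩ := h1
    have hkα : k = α := by
      by_contra hne
      have hlt : k < α := lt_of_le_of_ne hk hne
      apply ht
      refine Set.Subsingleton.countable ?_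
      intro ξ hξ η hη
      have aux : ∀ ζ, res α (f ζ).1 = t → (f ζ).1 = t := by
        intro ζ hζ
        obtain ⟨h, hh⟩ := (f ζ).2
        have h6 := res_node hcoh hh α
        rw [hζ] at h6
        have h7 := h6.unique htk
        have h8 : h ≤ α := by
          by_contra h9
          rw [not_le] at h9
          rw [min_eq_left h9.le] at h7
          exact hne h7.symm
        rw [← hζ, res_eq hh h8]
      exact hf (Subtype.ext ((aux ξ hξ).trans (aux η hη).symm))
    subst hkα
    refine ⟨t, htk, fun hc => ht (hc.mono ?_)⟩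
    intro ξ hξ
    have hξ' : res k (f ξ).1 = t := hξ
    show Agree k (f ξ).1 t
    rw [← hξ']
    exact (res_agree _ _).symm
  choose t ht1 ht2 using key
  have hunb : ∀ Z : Set Om1, ¬ Z.Countable → ∀ a, ∃ z ∈ Z, a < z := by
    intro Z hZ a
    by_contra hcon
    push Not at hcon
    exact hZ ((countable_Iic a).mono hcon)
  have huniq : ∀ α (s s' : Seq), ¬ {ξ | Agree α (f ξ).1 s}.Countable →
      ¬ {ξ | Agree α (f ξ).1 s'}.Countable → Agree α s s' := by
    intro α s s' h1 h2
    obtain ⟨a, ha, -⟩ := hunb _ h1 α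
    obtain ⟨b, hb, hab⟩ := hunb _ h2 a
    obtain ⟨c, hc, hbc⟩ := hunb _ h1 b
    have ha' : Agree α (f a).1 s := ha
    have hb' : Agree α (f b).1 s' := hb
    have hc' : Agree α (f c).1 s := hc
    have h3 := hconv α a b c hab hbc (ha'.trans hc'.symm)
    exact (ha'.symm.trans h3).trans hb'
  have hcomp : ∀ α β, α ≤ β → Agree α (t β) (t α) := by
    intro α β hαβ
    refine huniq α _ _ ?_ (ht2 α)
    intro hc
    apply ht2 β
    refine hc.mono ?_
    intro ξ hξ η hη
    exact hξ η (hη.trans_le hαβ)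
  choose sc hsc1 hsc2 using exists_succ
  let B : Om1 → WithBot ℚ := fun ξ => t (sc ξ) ξ
  have hB : ∀ α ξ, ξ < α → B ξ = t α ξ := by
    intro α ξ hξ
    have h1 : sc ξ ≤ α := not_lt.1 fun hlt => absurd (hsc2 ξ α hlt) (not_le.2 hξ)
    exact (hcomp (sc ξ) α h1 ξ (hsc1 ξ)).symm
  refine no_branch hfto B (fun ξ => (ht1 (sc ξ)).2.1 ξ (hsc1 ξ)) (fun α => ?_)
  refine (ht1 α).2.2.subset ?_
  rintro ξ ⟨h1, h2⟩
  exact ⟨h1, by rw [← hB α ξ h1]; exact h2⟩

/-- the node `x⌢q` -/
noncomputable def app (x : Seq) (h : Om1) (q : ℚ) : Seq := fun ξ => if ξ = h then (q : WithBot ℚ) else x ξ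

theorem app_node (hcoh : ∀ a b, b < a → {c | c < b ∧ e a c ≠ e b c}.Finite) {x : Seq} {h : Om1}
    (hx : IsNode e x h) (q : ℚ) : ∃ h', IsNode e (app x h q) h' := by
  obtain ⟨h', h1, h2⟩ := exists_succ h
  refine ⟨h', fun ξ hξ => ?_, fun ξ hξ => ?_, ?_⟩
  · have h3 : h < ξ := h1.trans_le hξ
    simp only [app, h3.ne', if_false]
    exact hx.1 ξ h3.le
  · rcases (h2 ξ hξ).lt_or_eq with h3 | h3
    · simp only [app, h3.ne, if_false]
      exact hx.2.1 ξ h3
    · subst h3
      simp [app]
  · have h4 : {ξ | ξ < h' ∧ app x h q ξ ≠ ((e h' ξ : ℚ) : WithBot ℚ)} ⊆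
        {h} ∪ ({ξ | ξ < h ∧ x ξ ≠ ((e h ξ : ℚ) : WithBot ℚ)} ∪ {c | c < h ∧ e h' c ≠ e h c}) := by
      rintro ξ ⟨h5, h6⟩
      rcases (h2 ξ h5).lt_or_eq with h3 | h3
      · right
        simp only [app, h3.ne, if_false] at h6
        by_cases h7 : e h' ξ = e h ξ
        · left
          refine ⟨h3, ?_⟩
          rw [← h7]
          exact h6
        · right
          exact ⟨h3, h7⟩
      · left
        exact h3
    exact ((Set.finite_singleton h).union (hx.2.2.union (hcoh h' h h1))).subset h4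

theorem lt_app {x : Seq} {h : Om1} (hx : IsNode e x h) (q : ℚ) : x < app x h q := by
  refine ⟨h, fun η hη => ?_, ?_⟩
  · show x η = if η = h then (q : WithBot ℚ) else x η
    rw [if_neg (ne_of_lt hη)]
  · show x h < if h = h then (q : WithBot ℚ) else x h
    rw [if_pos rfl, hx.1 h le_rfl]
    exact WithBot.bot_lt_coe q

/-- the points slightly above `x` -/
theorem app_lt {x y : Seq} {h h' : Om1} (hx : IsNode e x h) (hy : IsNode e y h') (hxy : x < y) :
    ∃ q : ℚ, app x h q < y := by
  obtain ⟨ξ, h1, h2⟩ := (lt_iff x y).1 hxy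
  rcases lt_trichotomy ξ h with hlt | heq | hgt
  · refine ⟨0, ξ, fun η hη => ?_, ?_⟩
    · show (if η = h then ((0 : ℚ) : WithBot ℚ) else x η) = y η
      rw [if_neg (ne_of_lt (hη.trans hlt))]
      exact h1 η hη
    · show (if ξ = h then ((0 : ℚ) : WithBot ℚ) else x ξ) < y ξ
      rw [if_neg (ne_of_lt hlt)]
      exact h2
  · subst heq
    have h3 : y ξ ≠ ⊥ := ne_bot_of_gt h2
    obtain ⟨r, hr⟩ := WithBot.ne_bot_iff_exists.1 h3
    refine ⟨r - 1, ξ, fun η hη => ?_, ?_⟩
    · show (if η = ξ then ((r - 1 : ℚ) : WithBot ℚ) else x η) = y η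
      rw [if_neg (ne_of_lt hη)]
      exact h1 η hη
    · show (if ξ = ξ then ((r - 1 : ℚ) : WithBot ℚ) else x ξ) < y ξ
      rw [if_pos rfl, ← hr]
      exact WithBot.coe_lt_coe.2 (by linarith)
  · exfalso
    have h4 := h1 h hgt
    rw [hx.1 h le_rfl] at h4
    have h5 : h' ≤ h := by
      by_contra h6
      rw [not_le] at h6
      exact hy.2.1 h h6 h4.symm
    have h6 := hy.1 ξ (h5.trans hgt.le)
    rw [h6] at h2
    exact absurd h2 not_lt_bot

end Line

/-- **Theorem.** There is a dense Aronszajn line `A` such that Player II has a winning strategy in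
the game `BG(A, S)` for every subset `S` of `A`. -/
theorem result : ∃ (A : Type) (_ : LinearOrder A), IsAronszajnLine A ∧
    (∀ x y : A, x < y → ∃ z, x < z ∧ z < y) ∧
    ∀ S : Set A, ∃ σ : StrategyII A, WinningII S σ := by
  classical
  obtain ⟨e, hfto, hcoh⟩ := Helper996.Dowker.exists_coherent (W := Om1) countable_Iio
  -- density
  have hdense : ∀ x y : Line e, x < y → ∃ z, x < z ∧ z < y := by
    intro x y hxy
    obtain ⟨h, hx⟩ := x.2
    obtain ⟨h', hy⟩ := y.2
    obtain ⟨q, hq⟩ := app_lt hx hy hxy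
    exact ⟨⟨app x.1 h q, app_node hcoh hx q⟩, lt_app hx q, hq⟩
  refine ⟨Line e, inferInstance, ⟨?_, ?_, ?_, ?_⟩, hdense, ?_⟩
  · -- uncountable
    have hnode : ∀ h : Om1, ∃ x : Seq, IsNode e x h := by
      intro h
      refine ⟨fun ξ => if ξ < h then ((e h ξ : ℚ) : WithBot ℚ) else ⊥, fun ξ hξ => ?_,
        fun ξ hξ => ?_, ?_⟩
      · show (if ξ < h then ((e h ξ : ℚ) : WithBot ℚ) else ⊥) = ⊥
        rw [if_neg (not_lt.2 hξ)]
      · show (if ξ < h then ((e h ξ : ℚ) : WithBot ℚ) else ⊥) ≠ ⊥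
        rw [if_pos hξ]
        exact WithBot.coe_ne_bot
      · refine Set.Finite.subset Set.finite_empty ?_
        rintro ξ ⟨h1, h2⟩
        apply h2
        show (if ξ < h then ((e h ξ : ℚ) : WithBot ℚ) else ⊥) = _
        rw [if_pos h1]
    choose x hx using hnode
    have hinj : Function.Injective (fun h : Om1 => (⟨x h, h, hx h⟩ : Line e)) := by
      intro h h' hh
      have h1 : x h = x h' := congrArg Subtype.val hh
      have h2 := hx h'
      rw [← h1] at h2
      exact (hx h).unique h2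
    have := uncountable_Om1
    exact hinj.uncountable
  · rintro ⟨f, hf⟩
    refine no_injection hfto hcoh f hf.injective ?_
    intro α a b c hab hbc hag
    exact agree_of_between (hf hab) (hf hbc) hag
  · rintro ⟨f, hf⟩
    refine no_injection hfto hcoh f hf.injective ?_
    intro α a b c hab hbc hag
    exact hag.trans (agree_of_between (hf hbc) (hf hab) hag.symm)
  · -- no uncountable set of reals
    rintro S ⟨g, hg⟩
    by_contra hS
    -- a countable dense subset
    obtain ⟨D, hDc, hDd⟩ := TopologicalSpace.exists_countable_dense (range g)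
    choose pre hpre using fun y : range g => y.2
    have hDS : ∃ E : Set S, E.Countable ∧ ∀ x y z : S, x < y → y < z → ∃ d ∈ E, x < d ∧ d < z := by
      refine ⟨pre '' D, hDc.image _, ?_⟩
      intro x y z hxy hyz
      have hopen : IsOpen {w : range g | g x < w.1 ∧ w.1 < g z} :=
        (isOpen_lt continuous_const continuous_subtype_val).inter
          (isOpen_lt continuous_subtype_val continuous_const)
      obtain ⟨w, hw1, hw2⟩ := hDd.exists_mem_open hopen ⟨⟨g y, y, rfl⟩, hg hxy, hg hyz⟩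
      refine ⟨pre w, ⟨w, hw1, rfl⟩, ?_, ?_⟩
      · apply hg.lt_iff_lt.1
        rw [hpre w]
        exact hw2.1
      · apply hg.lt_iff_lt.1
        rw [hpre w]
        exact hw2.2
    obtain ⟨E, hEc, hE⟩ := hDS
    choose ht hht using fun x : Line e => x.2
    obtain ⟨α, hα⟩ := exists_bound ((fun d : S => ht d.1) '' E) (hEc.image _)
    -- an uncountable class
    have hbig : ∃ t ∈ {x : Seq | ∃ k, k ≤ α ∧ IsNode e x k},
        ¬ {x : Line e | x ∈ S ∧ res α x.1 = t}.Countable := by
      by_contra hcon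
      push Not at hcon
      have h4 : S ⊆ ⋃ t ∈ {x : Seq | ∃ k, k ≤ α ∧ IsNode e x k},
          {x : Line e | x ∈ S ∧ res α x.1 = t} := by
        intro x hx
        exact mem_biUnion (x := res α x.1) ⟨_, min_le_left _ _, res_node hcoh (hht x) α⟩ ⟨hx, rfl⟩
      exact hS (((countable_levels α).biUnion hcon).mono h4)
    obtain ⟨t, ⟨k, hk, htk⟩, hT⟩ := hbig
    -- three elements
    have hinf : {x : Line e | x ∈ S ∧ res α x.1 = t}.Infinite := fun hfin => hT hfin.countable
    obtain ⟨F, hFsub, hFcard⟩ := hinf.exists_subset_card_eq 3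
    obtain ⟨x, y, z, hxy, hyz, hxF, hyF, hzF⟩ : ∃ x y z : Line e, x < y ∧ y < z ∧ x ∈ F ∧ y ∈ F ∧
        z ∈ F := by
      let o := F.orderEmbOfFin hFcard
      refine ⟨o 0, o 1, o 2, o.strictMono (by decide), o.strictMono (by decide), ?_, ?_, ?_⟩ <;>
        exact F.orderEmbOfFin_mem hFcard _
    have hx := hFsub hxF
    have hy := hFsub hyF
    have hz := hFsub hzF
    obtain ⟨d, hdE, hd1, hd2⟩ := hE ⟨x, hx.1⟩ ⟨y, hy.1⟩ ⟨z, hz.1⟩ hxy hyz
    have hdα : ht d.1 < α := hα _ ⟨d, hdE, rfl⟩
    have hxd : x.1 < d.1.1 := hd1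
    have hdz : d.1.1 < z.1 := hd2
    have hag : Agree α x.1 z.1 := by
      have e1 : res α x.1 = t := hx.2
      have e2 : res α z.1 = t := hz.2
      exact ((res_agree α x.1).symm.trans (by rw [e1, ← e2]; exact fun _ _ => rfl)).trans
        (res_agree α z.1)
    have hag2 := agree_of_between hxd hdz hag
    -- x and d agree below α; d is ⊥ at ht d, so x ends there as well
    have h1 := hag2 (ht d.1) hdα
    rw [(hht d.1).1 _ le_rfl] at h1
    have h2 : ht x ≤ ht d.1 := by
      by_contra h3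
      rw [not_le] at h3
      exact (hht x).2.1 _ h3 h1
    have h3 : x.1 = d.1.1 := by
      funext ξ
      by_cases h4 : ξ < α
      · exact hag2 ξ h4
      · rw [not_lt] at h4
        rw [(hht x).1 ξ ((h2.trans hdα.le).trans h4), (hht d.1).1 ξ (hdα.le.trans h4)]
    rw [h3] at hxd
    exact lt_irrefl _ hxd
  · -- the game
    intro S
    have : DenselyOrdered (Line e) := ⟨fun x y h => hdense x y h⟩
    refine exists_winning (fun n => {x : Line e | ∀ ξ (q : ℚ), x.1 ξ = (q : WithBot ℚ) → -(n : ℚ) ≤ q})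
      ?_ ?_ S
    · intro x
      obtain ⟨h, hx⟩ := x.2
      -- the finitely many exceptional values
      have hfin : {q : ℚ | ∃ ξ, (ξ < h ∧ x.1 ξ ≠ ((e h ξ : ℚ) : WithBot ℚ)) ∧
          x.1 ξ = (q : WithBot ℚ)}.Finite := by
        have h1 : ((fun ξ => (x.1 ξ).unbotD 0) '' {ξ | ξ < h ∧ x.1 ξ ≠ ((e h ξ : ℚ) : WithBot ℚ)}).Finite :=
          hx.2.2.image _
        refine h1.subset ?_
        rintro q ⟨ξ, h2, h3⟩
        refine ⟨ξ, h2, ?_⟩
        show (x.1 ξ).unbotD 0 = q
        rw [h3]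
        rfl
      obtain ⟨m, hm⟩ := hfin.bddBelow
      obtain ⟨n, hn⟩ := exists_nat_ge (-m)
      refine ⟨n, fun ξ q hq => ?_⟩
      have hξ : ξ < h := by
        by_contra hge
        rw [not_lt] at hge
        rw [hx.1 ξ hge] at hq
        exact absurd hq.symm WithBot.coe_ne_bot
      by_cases h4 : x.1 ξ = ((e h ξ : ℚ) : WithBot ℚ)
      · rw [h4] at hq
        have h5 : (e h ξ : ℚ) = q := WithBot.coe_injective hq
        rw [← h5]
        have h6 : (0 : ℚ) ≤ (e h ξ : ℚ) := Nat.cast_nonneg _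
        have h7 : (0 : ℚ) ≤ (n : ℚ) := Nat.cast_nonneg _
        linarith
      · have h5 : m ≤ q := hm ⟨ξ, ⟨hξ, h4⟩, hq⟩
        linarith
    · intro n z
      obtain ⟨h, hz⟩ := z.2
      refine ⟨⟨app z.1 h (-(n : ℚ) - 1), app_node hcoh hz _⟩, lt_app hz _, ?_⟩
      intro x hzx hxw hxD
      -- x extends z and x h < -n - 1
      have h1 : z.1 < x.1 := hzx
      have h2 : x.1 < app z.1 h (-(n : ℚ) - 1) := hxw
      have h3 : Agree h z.1 (app z.1 h (-(n : ℚ) - 1)) := by
        intro ξ hξ
        show z.1 ξ = if ξ = h then (((-(n : ℚ) - 1 : ℚ)) : WithBot ℚ) else z.1 ξ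
        rw [if_neg (ne_of_lt hξ)]
      have h4 : Agree h z.1 x.1 := agree_of_between h1 h2 h3
      have h5 : x.1 h ≠ z.1 h := by
        intro h6
        -- then x = z
        obtain ⟨h', hx⟩ := x.2
        rw [hz.1 h le_rfl] at h6
        have h7 : h' ≤ h := by
          by_contra h8
          rw [not_le] at h8
          exact hx.2.1 h h8 h6
        have h9 : z.1 = x.1 := by
          funext ξ
          by_cases h10 : ξ < h
          · exact h4 ξ h10
          · rw [not_lt] at h10
            rw [hz.1 ξ h10, hx.1 ξ (h7.trans h10)]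
        rw [h9] at h1
        exact lt_irrefl _ h1
      have h6 : x.1 h ≠ ⊥ := by
        rw [hz.1 h le_rfl] at h5
        exact h5
      obtain ⟨q, hq⟩ := WithBot.ne_bot_iff_exists.1 h6
      have h7 : -(n : ℚ) ≤ q := hxD h q hq.symm
      have h8 : app z.1 h (-(n : ℚ) - 1) h = (((-(n : ℚ) - 1 : ℚ)) : WithBot ℚ) := by
        show (if h = h then (((-(n : ℚ) - 1 : ℚ)) : WithBot ℚ) else z.1 h) = _
        rw [if_pos rfl]
      have h9 : x.1 h < app z.1 h (-(n : ℚ) - 1) h := by
        refine lt_of_first h2 (fun η hη => ?_) ?_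
        · rw [← h4 η hη]
          exact h3 η hη
        · rw [h8, ← hq]
          intro h10
          have h11 : q = -(n : ℚ) - 1 := WithBot.coe_injective h10
          linarith
      rw [h8, ← hq] at h9
      have h10 : q < -(n : ℚ) - 1 := WithBot.coe_lt_coe.1 h9
      linarith

end Pool.Agent.Results.MP_8fd369_lc.SecondPlayerWins
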